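import Pool.Agent.H78.GX.H78.GS.TA4
import Pool.Agent.H78.GX.H67.G3.MNB

/-!
Row MNS of the board gs3: a minimal invariant part of a bundle, fixed sequence of errors.
-/

set_option autoImplicit false

open Finset Pool.Agent.H6.N4D Pool.Agent.H78.GX.H6.N4D Pool.Agent.H78.GX

namespace Pool.Agent.H78.GX.H67.G3

open Pool.Agent.H78.GX.H78.GS

theorem pf_MNS (hRST : T_RST) (hCTP : T_CTP) : T_MNS := by
  intro r₀ es S Δ κ RP RW F₀ s₀ hes hS hΔ hκ hN hs1 hs2 hInv hRk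
  have hpos : ∀ k, 0 < es k := fun k => (hes k).1
  have hanti : Antitone es := antitone_nat_of_succ_le fun k => by
    have h1 := (hes k).2
    have h2 := (hes k).1
    linarith
  have hΔ' : (0 : ℝ) ≤ (Δ : ℝ) := by exact_mod_cast hΔ
  have hh : 0 < S.h := hS.hh
  -- the inner stretches
  have hcut : ∀ m : ℤ, 0 ≤ m → m ≤ r₀ * Δ → 12 * (S.K * S.L) ≤ S.N * S.h - 2 * (m * S.h) := by
    intro m _ h2
    have h3 : (m : ℝ) ≤ (r₀ : ℝ) * Δ := by exact_mod_cast h2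
    have h4 : (m : ℝ) * S.h ≤ (r₀ : ℝ) * Δ * S.h := mul_le_mul_of_nonneg_right h3 hh.le
    linarith
  have hmle : ∀ s : ℕ, s ≤ r₀ → 0 ≤ ((r₀ : ℤ) - s) * Δ ∧ ((r₀ : ℤ) - s) * Δ ≤ r₀ * Δ := by
    intro s hs
    have h1 : (s : ℤ) ≤ r₀ := by exact_mod_cast hs
    constructor
    · exact mul_nonneg (by linarith) hΔ
    · exact mul_le_mul_of_nonneg_right (by linarith [(Int.natCast_nonneg s : (0 : ℤ) ≤ s)]) hΔ
  let P : ℕ → Prop := fun s => 1 ≤ s ∧ s ≤ r₀ ∧ ∃ F : ℤ → Finset ℕ, (∀ t, F t ⊆ F₀ t) ∧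
    Inv (cut S (((r₀ : ℤ) - s) * Δ)) RP RW (es s) F ∧
    Rk (cut S (((r₀ : ℤ) - s) * Δ)) (2 * κ) F s
  have hP0 : P s₀ := by
    obtain ⟨m1, m2⟩ := hmle s₀ hs2
    obtain ⟨r1, r2⟩ := hRST S _ RP RW (es r₀ / 2) κ F₀ s₀ hS m1 (hcut _ m1 m2)
      (half_pos (hpos r₀)).le hκ
    have hc := hCTP S _ hS m1 (hcut _ m1 m2)
    refine ⟨hs1, hs2, F₀, fun t => Finset.Subset.refl _, ?_, ?_⟩
    · refine mnb_inv_mono (r1 hInv) hc.2.2.1 ?_
      have := hanti hs2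
      linarith
    · exact mnb_rk_mono (r2 hRk) hc.2.2.1 (by linarith)
  classical
  have hex : ∃ s, P s := ⟨s₀, hP0⟩
  obtain ⟨s, hs, hmin⟩ : ∃ s, P s ∧ ∀ s' < s, ¬ P s' :=
    ⟨Nat.find hex, Nat.find_spec hex, fun s' h => Nat.find_min hex h⟩
  obtain ⟨g1, g2, F, hF, hI, hR⟩ := hs
  obtain ⟨m1, m2⟩ := hmle s g2
  obtain ⟨k, rfl⟩ : ∃ k, s = k + 1 := ⟨s - 1, by omega⟩
  have hmm : ((r₀ : ℤ) - ((k + 1 : ℕ) : ℤ)) * Δ + Δ = ((r₀ : ℤ) - (k : ℤ)) * Δ := by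
    push_cast
    ring
  obtain ⟨n1, n2⟩ := hmle k (by omega)
  refine ⟨((r₀ : ℤ) - ((k + 1 : ℕ) : ℤ)) * Δ, k + 1, F, m1, ?_, g1, g2, hF, hI, hR, ?_⟩
  · rw [hmm]
    exact n2
  · rw [hmm, show k + 1 - 1 = k from rfl]
    intro s' F' h1 h2 h3 h4 h5
    have hsk : s' ≤ k := by omega
    have hc := hCTP S _ hS n1 (hcut _ n1 n2)
    have hm' : 0 ≤ ((k : ℤ) - s') * Δ :=
      mul_nonneg (by have : (s' : ℤ) ≤ k := by exact_mod_cast hsk
                     linarith) hΔ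
    have hadd : ((r₀ : ℤ) - (k : ℤ)) * Δ + ((k : ℤ) - s') * Δ = ((r₀ : ℤ) - s') * Δ := by ring
    obtain ⟨l1, l2⟩ := hmle s' (by omega)
    refine hmin s' h2 ⟨h1, by omega, F', fun t => (h3 t).trans (hF t), ?_⟩
    rcases hsk.eq_or_lt with he | hl
    · subst he
      exact ⟨h4, mnb_rk_mono h5 hc.2.2.1 (by linarith)⟩
    · have hcut' : 12 * ((cut S (((r₀ : ℤ) - (k : ℤ)) * Δ)).K *
          (cut S (((r₀ : ℤ) - (k : ℤ)) * Δ)).L) ≤
          (cut S (((r₀ : ℤ) - (k : ℤ)) * Δ)).N * (cut S (((r₀ : ℤ) - (k : ℤ)) * Δ)).h -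
            2 * ((((k : ℤ) - s') * Δ : ℤ) * (cut S (((r₀ : ℤ) - (k : ℤ)) * Δ)).h) := by
        rw [hc.2.1]
        have h6 := hcut _ l1 l2
        have h7 : ((((r₀ : ℤ) - s') * Δ : ℤ) : ℝ) =
            ((((r₀ : ℤ) - (k : ℤ)) * Δ : ℤ) : ℝ) + ((((k : ℤ) - s') * Δ : ℤ) : ℝ) := by
          exact_mod_cast hadd.symm
        rw [h7] at h6
        show 12 * (S.K * S.L) ≤ (S.N - 2 * ((((r₀ : ℤ) - (k : ℤ)) * Δ : ℤ) : ℝ)) * S.h -
          2 * ((((k : ℤ) - s') * Δ : ℤ) * S.h)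
        linarith
      obtain ⟨r1, r2⟩ := hRST _ _ RP RW (es k) κ F' s' hc.1 hm' hcut' (hpos k).le hκ
      have hc2 := hCTP _ _ hc.1 hm' hcut'
      have r1' := r1 h4
      have r2' := r2 h5
      rw [mnb_cut_cut, hadd] at r1' r2'
      have hN2 : 0 ≤ (cut S (((r₀ : ℤ) - s') * Δ)).N := by
        have := hc2.2.2.1
        rw [mnb_cut_cut, hadd] at this
        exact this
      refine ⟨mnb_inv_mono r1' hN2 ?_, mnb_rk_mono r2' hN2 (by linarith)⟩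
      have h8 : 2 * es k ≤ es (k - 1) := by
        have := (hes (k - 1)).2
        have e : k - 1 + 1 = k := by omega
        rw [e] at this
        linarith
      exact h8.trans (hanti (show s' ≤ k - 1 by omega))

end Pool.Agent.H78.GX.H67.G3
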